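import Pool.Agent.H380Z.NV.Final

set_option autoImplicit false

namespace Pool.Agent.Results.MP_1c1c61_pr.ACutoffAllStarts

open Filter Topology Pool.Agent.H380Z.NV

/-- The `q`-state noisy voter model on a bounded-degree sequence of connected graphs whose sizes
tend to infinity has cutoff from every sequence of initial states. -/
theorem result (q : ℕ) (hq : 2 ≤ q) (θ : ℝ) (h0 : 0 < θ) (h1 : θ < 1)
    (V : ℕ → Type) [∀ n, Fintype (V n)] [∀ n, DecidableEq (V n)]
    (hV : Tendsto (fun n => Fintype.card (V n)) atTop atTop)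
    (G : ∀ n, SimpleGraph (V n)) [∀ n, DecidableRel (G n).Adj]
    (hc : ∀ᶠ n in atTop, (G n).Connected) (hd : ∃ D : ℕ, ∀ n v, (G n).degree v ≤ D)
    (μ : ∀ n, (V n → Fin q) → ℝ) (hμ : ∀ᶠ n in atTop, IsStationary (G n) q θ (μ n))
    (x : ∀ n, V n → Fin q) :
    ∃ T : ℕ → ℝ, Tendsto T atTop atTop ∧ ∀ ε : ℝ, 0 < ε → ε < 1 →
      Tendsto (fun n => tmix (G n) q θ (μ n) (x n) ε / T n) atTop (𝓝 1) :=
  cutoff q hq θ h0 h1 V hV G hc hd μ hμ x

end Pool.Agent.Results.MP_1c1c61_pr.ACutoffAllStarts
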